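import Pool.Agent.W811.LW.Stm

set_option autoImplicit false

namespace Pool.Agent.W141.LW

open Filter Topology
open Pool.Agent.W811.LW

theorem last (h : FINC) (hl : LSEQ) : LAST := by
  intro ε hε
  obtain ⟨L, K, hL, hLK, hlim⟩ := hl ε hε
  obtain ⟨ξ, ζ, D, c4, c, hD, hc4, hc, hmain⟩ := h L K hL hLK
  have hLt : Tendsto L atTop atTop := hL.tendsto_atTop
  have hDL : Tendsto (fun k => D ^ (L k)) atTop atTop :=
    (tendsto_pow_atTop_atTop_of_one_lt hD).comp hLt
  have hcDL : Tendsto (fun k => c4 * D ^ (L k)) atTop atTop := hDL.const_mul_atTop hc4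
  obtain ⟨k0, hk0⟩ := eventually_atTop.1 (hcDL.eventually_ge_atTop 2)
  have hD0 : 0 < D := by linarith
  have hlogD : 0 < Real.log D := Real.log_pos hD
  refine ⟨ξ, ζ, fun k => c4 * D ^ (L (k + k0)), ?_, ?_, c * c4, by positivity, ?_⟩
  · exact hcDL.comp (tendsto_add_atTop_nat k0)
  · have hlog : ∀ n : ℕ, Real.log (c4 * D ^ n) = Real.log c4 + n * Real.log D := by
      intro n
      rw [Real.log_mul hc4.ne' (pow_pos hD0 n).ne', Real.log_pow]
    have h1 : Tendsto (fun k => (L (k + 1) : ℝ) / (L k : ℝ)) atTop (𝓝 (1 + ε)) := hlim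
    have hLR : Tendsto (fun k => (L k : ℝ)) atTop atTop := tendsto_natCast_atTop_atTop.comp hLt
    have h2 : Tendsto (fun k => Real.log c4 / ((L k : ℝ) * Real.log D)) atTop (𝓝 0) :=
      (hLR.atTop_mul_const hlogD).const_div_atTop _
    have h3 : Tendsto (fun k => (Real.log c4 / ((L k : ℝ) * Real.log D) +
        (L (k + 1) : ℝ) / (L k : ℝ)) / (Real.log c4 / ((L k : ℝ) * Real.log D) + 1)) atTop
        (𝓝 ((0 + (1 + ε)) / (0 + 1))) := (h2.add h1).div (h2.add_const 1) (by norm_num)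
    have h4 : Tendsto (fun k => Real.log (c4 * D ^ (L (k + 1))) / Real.log (c4 * D ^ (L k))) atTop
        (𝓝 (1 + ε)) := by
      have h5 : (0 + (1 + ε)) / (0 + 1) = 1 + ε := by ring
      rw [h5] at h3
      refine h3.congr' ?_
      filter_upwards [hLR.eventually_gt_atTop 0] with k hk
      rw [hlog, hlog]
      have h6 : (L k : ℝ) * Real.log D ≠ 0 := by positivity
      rw [← mul_div_mul_left _ _ h6]
      congr 1
      · field_simp
      · field_simp
    have h7 := h4.comp (tendsto_add_atTop_nat k0)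
    refine h7.congr fun k => ?_
    simp only [Function.comp]
    rw [show k + k0 + 1 = k + 1 + k0 by ring]
  · intro k
    have hQ2 : 2 ≤ c4 * D ^ (L (k + k0)) := hk0 (k + k0) (by omega)
    have hQ : 0 < c4 * D ^ (L (k + k0)) := by linarith
    haveI : Nonempty {q : ℕ // 0 < q ∧ (q : ℝ) ≤ c4 * D ^ (L (k + k0))} :=
      ⟨⟨1, by norm_num, by push_cast; linarith⟩⟩
    have hkey : c * c4 / (c4 * D ^ (L (k + k0))) ≤
        ⨅ q : {q : ℕ // 0 < q ∧ (q : ℝ) ≤ c4 * D ^ (L (k + k0))},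
        |((q.1 : ℝ) * ξ) - (round ((q.1 : ℝ) * ξ) : ℝ)| *
        |((q.1 : ℝ) * ζ) - (round ((q.1 : ℝ) * ζ) : ℝ)| := by
      apply le_ciInf
      rintro ⟨q, hq0, hq⟩
      have h1 := hmain (k + k0) (q : ℤ) (round ((q : ℝ) * ξ)) (round ((q : ℝ) * ζ))
        (by exact_mod_cast hq0) (by push_cast; exact hq)
        (by
          push_cast
          exact (abs_sub_round _).trans (by norm_num))
      rw [Int.cast_natCast] at h1
      rw [div_le_iff₀ hQ]
      calc c * c4 ≤ (D ^ (L (k + k0)) * (|(q : ℝ) * ξ - (round ((q : ℝ) * ξ) : ℝ)| *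
            |(q : ℝ) * ζ - (round ((q : ℝ) * ζ) : ℝ)|)) * c4 :=
            mul_le_mul_of_nonneg_right h1 hc4.le
        _ = _ := by ring
    calc c * c4 = c4 * D ^ (L (k + k0)) * (c * c4 / (c4 * D ^ (L (k + k0)))) := by
          field_simp
      _ ≤ _ := mul_le_mul_of_nonneg_left hkey hQ.le

end Pool.Agent.W141.LW
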